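import Pool.Agent.W2helper58.PW.Stm

/-!
# Project PW, piece SEC1
-/

set_option autoImplicit false

namespace Pool.Agent.W2helper85.PW

open Pool.Agent.W2helper58.PW

section

variable {R S K C : Type}

open Classical in
/-- the programmed tables: the public key of `r` is `k`, the ciphertext of `b` with the random
string `s` is `c` -/
noncomputable def prog (b : Bool) (r : R) (s : S) (T : Tab R S K C) (k : K) (c : C) :
    Tab R S K C :=
  (fun r' => if r' = r then k else T.1 r',
    fun k' b' s' => if k' = k ∧ b' = b ∧ s' = s then c else T.2 k' b' s')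

theorem prog_same1 (b : Bool) (r : R) (s : S) (T : Tab R S K C) (k : K) (c : C) :
    (prog b r s T k c).1 r = k := by
  simp [prog]

theorem prog_same2 (b : Bool) (r : R) (s : S) (T : Tab R S K C) (k : K) (c : C) :
    (prog b r s T k c).2 k b s = c := by
  simp [prog]

theorem prog_ne1 (b : Bool) (r : R) (s : S) (T : Tab R S K C) (k : K) (c : C) {r' : R}
    (h : r' ≠ r) : (prog b r s T k c).1 r' = T.1 r' := by
  simp [prog, h]

theorem prog_ne2 (b : Bool) (r : R) (s : S) (T : Tab R S K C) (k : K) (c : C) {k' : K}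
    {b' : Bool} {s' : S} (h : ¬ (k' = k ∧ s' = s)) :
    (prog b r s T k c).2 k' b' s' = T.2 k' b' s' := by
  simp only [prog]
  rw [if_neg]
  rintro ⟨h1, _, h3⟩
  exact h ⟨h1, h3⟩

/-- the programming map -/
noncomputable def prF (b : Bool) (r : R) (s : S) (x : Tab R S K C × (K × C)) :
    Tab R S K C × (K × C) :=
  (prog b r s x.1 x.2.1 x.2.2, (x.1.1 r, x.1.2 x.2.1 b s))

theorem prF_injective (b : Bool) (r : R) (s : S) :
    Function.Injective (prF (R := R) (S := S) (K := K) (C := C) b r s) := by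
  classical
  rintro ⟨T, k, c⟩ ⟨T', k', c'⟩ h
  have h1 : prog b r s T k c = prog b r s T' k' c' := congrArg Prod.fst h
  have h2 : T.1 r = T'.1 r := congrArg (fun y => y.2.1) h
  have h3 : T.2 k b s = T'.2 k' b s := congrArg (fun y => y.2.2) h
  have hk : k = k' := by
    have := congrArg (fun y : Tab R S K C => y.1 r) h1
    simpa only [prog_same1] using this
  subst hk
  have hc : c = c' := by
    have := congrArg (fun y : Tab R S K C => y.2 k b s) h1
    simpa only [prog_same2] using this
  subst hc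
  have hT : T = T' := by
    refine Prod.ext ?_ ?_
    · funext r'
      by_cases hr : r' = r
      · rw [hr]; exact h2
      · have := congrArg (fun y : Tab R S K C => y.1 r') h1
        simpa only [prog_ne1 b r s _ k c hr] using this
    · funext k' b' s'
      by_cases hq : k' = k ∧ b' = b ∧ s' = s
      · obtain ⟨q1, q2, q3⟩ := hq
        rw [q1, q2, q3]; exact h3
      · have := congrArg (fun y : Tab R S K C => y.2 k' b' s') h1
        simpa only [prog, if_neg hq] using this
  rw [hT]

theorem transfer [Fintype K] [Fintype C] [Fintype (Tab R S K C)] (b : Bool) (r : R) (s : S)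
    (g : Tab R S K C → ℝ) :
    ((Fintype.card K : ℝ) * Fintype.card C) * ∑ T : Tab R S K C, g T =
      ∑ T : Tab R S K C, ∑ k : K, ∑ c : C, g (prog b r s T k c) := by
  have hbij : Function.Bijective (prF (R := R) (S := S) (K := K) (C := C) b r s) :=
    Finite.injective_iff_bijective.1 (prF_injective b r s)
  have h := hbij.sum_comp (fun y : Tab R S K C × (K × C) => g y.1)
  simp only [Fintype.sum_prod_type, prF] at h
  rw [h]
  simp only [Finset.sum_const, Finset.card_univ, nsmul_eq_mul]
  rw [Finset.mul_sum]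
  exact Finset.sum_congr rfl fun T _ => by ring

/-- the questions which become related to `r`, `s` -/
def Bad (r : R) (s : S) : Qn R S K C → Prop
  | Qn.p r0 => r0 = r
  | Qn.e _ _ s0 => s0 = s
  | Qn.d r0 _ => r0 = r

theorem no_bad {t : ℕ} (a : Adv R S K C t) (b : Bool) (T : Tab R S K C) (k : K) (c : C)
    (hk : ∀ r, T.1 r ≠ k) (r : R) (s : S) (h : ∀ q ∈ a.Q k c T, ¬ Bad r s q) :
    ¬ ∃ q ∈ a.Q k c (prog b r s T k c), Zq (prog b r s T k c) r s q := by
  have hagr : ∀ q ∈ a.Q k c T, Agr T (prog b r s T k c) q := by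
    intro q hq
    have hb := h q hq
    cases q with
    | p r0 => exact prog_ne1 b r s T k c hb
    | e k0 b0 s0 => exact prog_ne2 b r s T k c (fun hh => hb hh.2)
    | d r0 c0 =>
      have hr0 : r0 ≠ r := hb
      show isD (prog b r s T k c) r0 c0 ↔ isD T r0 c0
      unfold isD
      rw [prog_ne1 b r s T k c hr0]
      have : ∀ s1, (prog b r s T k c).2 (T.1 r0) true s1 = T.2 (T.1 r0) true s1 :=
        fun s1 => prog_ne2 b r s T k c (fun hh => hk r0 hh.1)
      simp only [this]
  have hQ := (a.loc k c T (prog b r s T k c) hagr).1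
  rw [hQ]
  rintro ⟨q, hq, hz⟩
  have hb := h q hq
  cases q with
  | p r0 => exact hz
  | e k0 b0 s0 => exact hb hz.2
  | d r0 c0 =>
    have hz' : (prog b r s T k c).1 r0 = (prog b r s T k c).1 r := hz
    have hr0 : r0 ≠ r := hb
    rw [prog_same1, prog_ne1 b r s T k c hr0] at hz'
    exact hk r0 hz'

theorem one_sum {X : Type} [Fintype X] (x0 : X) (p : X → Prop) [DecidablePred p]
    (hp : ∀ x, p x ↔ x0 = x) : ∑ x : X, (if p x then (1 : ℝ) else 0) = 1 := by
  rw [Finset.sum_eq_single x0]
  · rw [if_pos ((hp x0).2 rfl)]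
  · intro b _ hb
    rw [if_neg]
    intro h
    exact hb ((hp b).1 h).symm
  · intro h
    exact absurd (Finset.mem_univ _) h

open Classical in
theorem sum_bad [Fintype R] [Fintype S] (q : Qn R S K C) :
    ∑ r : R, ∑ s : S, (if Bad r s q then (1 : ℝ) else 0) ≤
      max (Fintype.card R) (Fintype.card S) := by
  cases q with
  | p r0 =>
    rw [Finset.sum_comm, Finset.sum_congr rfl fun s _ => one_sum r0
      (fun r => Bad r s (Qn.p r0 : Qn R S K C)) (fun r => Iff.rfl)]
    simp
  | e k0 b0 s0 =>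
    rw [Finset.sum_congr rfl fun r _ => one_sum s0
      (fun s => Bad r s (Qn.e k0 b0 s0 : Qn R S K C)) (fun s => Iff.rfl)]
    simp
  | d r0 c0 =>
    rw [Finset.sum_comm, Finset.sum_congr rfl fun s _ => one_sum r0
      (fun r => Bad r s (Qn.d r0 c0 : Qn R S K C)) (fun r => Iff.rfl)]
    simp

open Classical in
theorem bound [Fintype R] [Fintype S] {N t : ℕ} (a : Adv R S K C t) (b : Bool)
    (hR : Fintype.card R = N) (hS : Fintype.card S = N) (T : Tab R S K C) (k : K) (c : C) :
    ∑ r : R, ∑ s : S, (if ∃ q ∈ a.Q ((prog b r s T k c).1 r)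
        ((prog b r s T k c).2 ((prog b r s T k c).1 r) b s) (prog b r s T k c),
        Zq (prog b r s T k c) r s q then (1 : ℝ) else 0) ≤
      t * N + if ∃ r, T.1 r = k then (N : ℝ) ^ 2 else 0 := by
  simp only [prog_same1, prog_same2]
  have ht0 : (0 : ℝ) ≤ t * N := by positivity
  by_cases hk : ∃ r, T.1 r = k
  · rw [if_pos hk]
    have h1 : ∑ r : R, ∑ s : S, (if ∃ q ∈ a.Q k c (prog b r s T k c),
        Zq (prog b r s T k c) r s q then (1 : ℝ) else 0) ≤ ∑ _r : R, ∑ _s : S, (1 : ℝ) :=
      Finset.sum_le_sum fun r _ => Finset.sum_le_sum fun s _ => by split_ifs <;> norm_num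
    have h2 : ∑ _r : R, ∑ _s : S, (1 : ℝ) = (N : ℝ) ^ 2 := by
      simp [hR, hS]
      ring
    rw [h2] at h1
    linarith
  · rw [if_neg hk, add_zero]
    push Not at hk
    have h1 : ∀ r : R, ∀ s : S, (if ∃ q ∈ a.Q k c (prog b r s T k c),
        Zq (prog b r s T k c) r s q then (1 : ℝ) else 0) ≤
        ∑ q ∈ a.Q k c T, if Bad r s q then (1 : ℝ) else 0 := by
      intro r s
      have hnn : ∀ q ∈ a.Q k c T, (0 : ℝ) ≤ if Bad r s q then (1 : ℝ) else 0 := by
        intro q _
        split_ifs <;> norm_num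
      by_cases hb : ∀ q ∈ a.Q k c T, ¬ Bad r s q
      · rw [if_neg (no_bad a b T k c hk r s hb)]
        exact Finset.sum_nonneg hnn
      · push Not at hb
        obtain ⟨q, hq, hbq⟩ := hb
        calc (if ∃ q ∈ a.Q k c (prog b r s T k c),
              Zq (prog b r s T k c) r s q then (1 : ℝ) else 0) ≤ 1 := by
              split_ifs <;> norm_num
          _ = if Bad r s q then (1 : ℝ) else 0 := by rw [if_pos hbq]
          _ ≤ _ := Finset.single_le_sum (f := fun q => if Bad r s q then (1 : ℝ) else 0) hnn hq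
    calc _ ≤ ∑ r : R, ∑ s : S, ∑ q ∈ a.Q k c T, (if Bad r s q then (1 : ℝ) else 0) :=
          Finset.sum_le_sum fun r _ => Finset.sum_le_sum fun s _ => h1 r s
      _ = ∑ q ∈ a.Q k c T, ∑ r : R, ∑ s : S, (if Bad r s q then (1 : ℝ) else 0) := by
          exact (Finset.sum_congr rfl fun r _ => Finset.sum_comm).trans Finset.sum_comm
      _ ≤ ∑ _q ∈ a.Q k c T, (N : ℝ) := Finset.sum_le_sum fun q _ => by
          have := sum_bad (R := R) (S := S) q
          rw [hR, hS, max_self] at this
          exact this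
      _ ≤ t * N := by
          rw [Finset.sum_const, nsmul_eq_mul]
          have := a.card k c T
          have h2 : ((a.Q k c T).card : ℝ) ≤ t := by exact_mod_cast this
          exact mul_le_mul_of_nonneg_right h2 (Nat.cast_nonneg _)

open Classical in
theorem p_sec1 : P_sec1 := by
  intro R S K C _ _ _ _ N t a b hR hS hK hN
  by_cases hT : IsEmpty (Tab R S K C)
  · simp
  rw [not_isEmpty_iff] at hT
  have hC : 0 < Fintype.card C := by
    rw [Fintype.card_pos_iff]
    obtain ⟨T⟩ := hT
    have h1 : 0 < Fintype.card K := by rw [hK]; positivity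
    have h2 : 0 < Fintype.card S := by rw [hS]; exact hN
    obtain ⟨k⟩ := Fintype.card_pos_iff.1 h1
    obtain ⟨s⟩ := Fintype.card_pos_iff.1 h2
    exact ⟨T.2 k true s⟩
  have hKC : (0 : ℝ) < (Fintype.card K : ℝ) * Fintype.card C := by
    have h1 : 0 < Fintype.card K := by rw [hK]; positivity
    exact mul_pos (by exact_mod_cast h1) (by exact_mod_cast hC)
  refine le_of_mul_le_mul_left ?_ hKC
  have e1 : (Fintype.card K : ℝ) * Fintype.card C * (∑ T : Tab R S K C, ∑ r : R, ∑ s : S,
      (if ∃ q ∈ a.Q (T.1 r) (T.2 (T.1 r) b s) T, Zq T r s q then (1 : ℝ) else 0)) =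
      ∑ T : Tab R S K C, ∑ k : K, ∑ c : C, ∑ r : R, ∑ s : S,
        (if ∃ q ∈ a.Q ((prog b r s T k c).1 r)
          ((prog b r s T k c).2 ((prog b r s T k c).1 r) b s) (prog b r s T k c),
          Zq (prog b r s T k c) r s q then (1 : ℝ) else 0) := by
    have e2 : ∑ T : Tab R S K C, ∑ r : R, ∑ s : S,
        (if ∃ q ∈ a.Q (T.1 r) (T.2 (T.1 r) b s) T, Zq T r s q then (1 : ℝ) else 0) =
        ∑ r : R, ∑ s : S, ∑ T : Tab R S K C,
        (if ∃ q ∈ a.Q (T.1 r) (T.2 (T.1 r) b s) T, Zq T r s q then (1 : ℝ) else 0) := by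
      rw [Finset.sum_comm]
      exact Finset.sum_congr rfl fun r _ => Finset.sum_comm
    rw [e2, Finset.mul_sum]
    have e3 : ∀ r : R, (Fintype.card K : ℝ) * Fintype.card C * (∑ s : S, ∑ T : Tab R S K C,
        (if ∃ q ∈ a.Q (T.1 r) (T.2 (T.1 r) b s) T, Zq T r s q then (1 : ℝ) else 0)) =
        ∑ s : S, ∑ T : Tab R S K C, ∑ k : K, ∑ c : C,
        (if ∃ q ∈ a.Q ((prog b r s T k c).1 r)
          ((prog b r s T k c).2 ((prog b r s T k c).1 r) b s) (prog b r s T k c),
          Zq (prog b r s T k c) r s q then (1 : ℝ) else 0) := by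
      intro r
      rw [Finset.mul_sum]
      exact Finset.sum_congr rfl fun s _ => transfer b r s
        (fun T => if ∃ q ∈ a.Q (T.1 r) (T.2 (T.1 r) b s) T, Zq T r s q then (1 : ℝ) else 0)
    rw [Finset.sum_congr rfl fun r _ => e3 r]
    rw [Finset.sum_congr rfl fun r _ => Finset.sum_comm, Finset.sum_comm]
    refine Finset.sum_congr rfl fun T _ => ?_
    rw [Finset.sum_congr rfl fun r _ => Finset.sum_comm, Finset.sum_comm]
    refine Finset.sum_congr rfl fun k _ => ?_
    rw [Finset.sum_congr rfl fun r _ => Finset.sum_comm, Finset.sum_comm]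
  rw [e1]
  have hrange : ∀ T : Tab R S K C, ∑ k : K, (if ∃ r, T.1 r = k then (N : ℝ) ^ 2 else 0) ≤
      (N : ℝ) ^ 3 := by
    intro T
    have h1 : ∀ k : K, (if ∃ r, T.1 r = k then (N : ℝ) ^ 2 else 0) ≤
        ∑ r : R, if T.1 r = k then (N : ℝ) ^ 2 else 0 := by
      intro k
      have hnn : ∀ r ∈ (Finset.univ : Finset R), (0 : ℝ) ≤ if T.1 r = k then (N : ℝ) ^ 2 else 0 := by
        intro r _
        split_ifs
        · positivity
        · exact le_rfl
      by_cases h : ∃ r, T.1 r = k
      · obtain ⟨r, hr⟩ := h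
        rw [if_pos ⟨r, hr⟩]
        calc (N : ℝ) ^ 2 = if T.1 r = k then (N : ℝ) ^ 2 else 0 := by rw [if_pos hr]
          _ ≤ _ := Finset.single_le_sum (f := fun r => if T.1 r = k then (N : ℝ) ^ 2 else 0)
            hnn (Finset.mem_univ r)
      · rw [if_neg h]
        exact Finset.sum_nonneg hnn
    calc _ ≤ ∑ k : K, ∑ r : R, (if T.1 r = k then (N : ℝ) ^ 2 else 0) :=
          Finset.sum_le_sum fun k _ => h1 k
      _ = ∑ r : R, ∑ k : K, (if T.1 r = k then (N : ℝ) ^ 2 else 0) := Finset.sum_comm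
      _ = ∑ _r : R, (N : ℝ) ^ 2 := Finset.sum_congr rfl fun r _ => by
          rw [Finset.sum_eq_single (T.1 r)]
          · rw [if_pos rfl]
          · intro k _ hk
            rw [if_neg (Ne.symm hk)]
          · intro h
            exact absurd (Finset.mem_univ _) h
      _ = (N : ℝ) ^ 3 := by
          rw [Finset.sum_const, Finset.card_univ, hR, nsmul_eq_mul]
          ring
      _ ≤ (N : ℝ) ^ 3 := le_rfl
  have hKr : (Fintype.card K : ℝ) = (N : ℝ) ^ 3 := by rw [hK]; push_cast; ring
  calc _ ≤ ∑ T : Tab R S K C, ∑ k : K, ∑ _c : C,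
        ((t * N : ℝ) + if ∃ r, T.1 r = k then (N : ℝ) ^ 2 else 0) :=
        Finset.sum_le_sum fun T _ => Finset.sum_le_sum fun k _ => Finset.sum_le_sum fun c _ =>
          bound a b hR hS T k c
    _ = ∑ T : Tab R S K C, (Fintype.card C : ℝ) * ((Fintype.card K : ℝ) * (t * N) +
        ∑ k : K, (if ∃ r, T.1 r = k then (N : ℝ) ^ 2 else 0)) := by
        refine Finset.sum_congr rfl fun T _ => ?_
        simp only [Finset.sum_const, Finset.card_univ, nsmul_eq_mul]
        rw [← Finset.mul_sum, Finset.sum_add_distrib, Finset.sum_const, Finset.card_univ,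
          nsmul_eq_mul]
    _ ≤ ∑ _T : Tab R S K C, (Fintype.card C : ℝ) * ((Fintype.card K : ℝ) * (t * N) +
        (N : ℝ) ^ 3) :=
        Finset.sum_le_sum fun T _ => mul_le_mul_of_nonneg_left
          (add_le_add_right (hrange T) _) (Nat.cast_nonneg _)
    _ = (Fintype.card K : ℝ) * Fintype.card C *
        ((t * N + 1) * Fintype.card (Tab R S K C)) := by
        rw [Finset.sum_const, Finset.card_univ, nsmul_eq_mul, hKr]
        ring

end

end Pool.Agent.W2helper85.PW
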